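import Pool.Agent.U44.TD.Up2
import Pool.Agent.H109R3.LA.Fin

/-!
# The halting problem and topological categoricity
-/

set_option autoImplicit false

namespace Pool.Agent.U44.TD

open Nat.Partrec (Code)
open Pool.Agent.Helper583.TT
open Pool.Agent.Helper583.TC (orc Red)
open Pool.Agent.H109R3.TC (CompMapIn Cat CatBoth)
open Filter Topology

/-- an infinite space with dense isolated points which is categorical relative to `a` -/
theorem red_of_cat (X : Type) [TopologicalSpace X] [Infinite X]
    (hX : ∃ M : CMS, Nonempty (M.Y ≃ₜ X)) (hiso : Dense {x : X | IsOpen ({x} : Set X)})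
    {a : ℕ → ℕ} (hcat : Cat X a) : Red chH a := by
  obtain ⟨M₀, ⟨i₀⟩⟩ := hX
  have : Infinite M₀.Y := Infinite.of_injective i₀.symm i₀.symm.injective
  have hc := cr_of_comp M₀
  obtain ⟨g, hg, hinj, hr⟩ := Pool.Agent.Helper583.TT.TTInj.exists_inj M₀.c M₀.dense hc
  have hd : DenseRange fun n => M₀.c (g n) := dense_of_range hr M₀.dense
  have hc' : CR fun p : ℕ × ℕ => dist (M₀.c (g p.1)) (M₀.c (g p.2)) :=
    hc.comp ((hg.comp Computable.fst).pair (hg.comp Computable.snd) :
      Computable fun p : ℕ × ℕ => (g p.1, g p.2))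
  have hiso' : Dense {y : M₀.Y | IsOpen ({y} : Set M₀.Y)} := by
    have h1 := hiso.preimage i₀.isOpenMap
    refine h1.mono fun y hy => ?_
    have h2 : IsOpen ({i₀ y} : Set X) := hy
    have h3 := h2.preimage i₀.continuous
    have h4 : i₀ ⁻¹' {i₀ y} = {y} := by
      ext z
      simp
    rw [h4] at h3
    exact h3
  obtain ⟨iM⟩ : Nonempty ((MC hd hc').Y ≃ₜ M₀.Y) :=
    twin hd hinj hiso' iC_finite hC_nonneg hC_lim
  obtain ⟨iN⟩ : Nonempty ((MA hd hc').Y ≃ₜ M₀.Y) := by
    refine twin hd hinj hiso' (fun n => ?_) (fun e => by positivity) pow_lim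
    exact (Set.finite_singleton n).subset fun e he => he
  obtain ⟨h, h1⟩ := hcat (MC hd hc') (MA hd hc') ⟨iM.trans i₀⟩ ⟨iN.trans i₀⟩
  exact red_chH hinj h1

/-- the discrete space `ℕ` is categorical relative to the halting problem -/
theorem catBoth_nat : CatBoth ℕ chH := by
  rintro M N ⟨i⟩ ⟨j⟩
  have hM : DiscreteTopology M.Y := i.isEmbedding.discreteTopology
  have hN : DiscreteTopology N.Y := j.isEmbedding.discreteTopology
  have : Infinite M.Y := Infinite.of_injective i.symm i.symm.injective
  have : Infinite N.Y := Infinite.of_injective j.symm j.symm.injective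
  obtain ⟨E⟩ := exists_enum M
  obtain ⟨E'⟩ := exists_enum N
  refine ⟨⟨E.e.symm.trans E'.e, continuous_of_discreteTopology, continuous_of_discreteTopology⟩,
    compMap E E' hM, ?_⟩
  have h1 := compMap E' E hN
  exact h1

/-- the isolated points of a countable computable Polish space are dense -/
theorem dense_of_countable (X : Type) [TopologicalSpace X] [Countable X]
    (hX : ∃ M : CMS, Nonempty (M.Y ≃ₜ X)) : Dense {x : X | IsOpen ({x} : Set X)} := by
  obtain ⟨M₀, ⟨i₀⟩⟩ := hX
  have : Countable M₀.Y := Countable.of_equiv X i₀.symm.toEquiv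
  have h1 : Dense {y : M₀.Y | IsOpen ({y} : Set M₀.Y)} := by
    have h2 := dense_iUnion_interior_of_closed (f := fun y : M₀.Y => ({y} : Set M₀.Y))
      (fun y => isClosed_singleton) (by
        rw [Set.eq_univ_iff_forall]
        intro y
        exact Set.mem_iUnion.2 ⟨y, rfl⟩)
    refine h2.mono fun y hy => ?_
    obtain ⟨z, hz⟩ := Set.mem_iUnion.1 hy
    have hz' : y ∈ interior ({z} : Set M₀.Y) := hz
    have hzy : y = z := Set.mem_singleton_iff.1 (interior_subset hz')
    subst hzy
    have h3 : interior ({y} : Set M₀.Y) = {y} :=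
      Set.Subset.antisymm interior_subset (Set.singleton_subset_iff.2 hz')
    show IsOpen ({y} : Set M₀.Y)
    rw [← h3]
    exact isOpen_interior
  have h2 := h1.preimage i₀.symm.isOpenMap
  refine h2.mono fun x hx => ?_
  have h3 : IsOpen ({i₀.symm x} : Set M₀.Y) := hx
  have h4 := h3.preimage i₀.symm.continuous
  have h5 : i₀.symm ⁻¹' {i₀.symm x} = {x} := by
    ext z
    simp
  rw [h5] at h4
  exact h4

/-- the halting problem is not computable -/
theorem not_computable : ¬ ComputablePred fun e : ℕ => ∃ s, T e s = true := by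
  intro h
  have h1 : REPred fun n : ℕ => ((Denumerable.ofNat Code n).eval 0).Dom := by
    have h2 : Partrec fun n : ℕ => (Denumerable.ofNat Code n).eval 0 :=
      Code.eval_part.comp ((Primrec.ofNat Code).to_comp) (Computable.const 0)
    exact h2.dom_re
  obtain ⟨f, hf, h3⟩ := many_one h1
  have h4 : ComputablePred fun n : ℕ => ((Denumerable.ofNat Code n).eval 0).Dom := by
    have h5 : ComputablePred fun n : ℕ => ∃ s, T (f n) s = true := by
      obtain ⟨hdec, hcomp⟩ := h
      exact ⟨fun n => hdec (f n), hcomp.comp hf⟩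
    exact h5.of_eq fun n => (h3 n).symm
  refine ComputablePred.halting_problem 0 ?_
  obtain ⟨hdec, hcomp⟩ := h4
  have h6 : ComputablePred fun c : Code =>
      ((Denumerable.ofNat Code (Encodable.encode c)).eval 0).Dom :=
    ⟨fun c => hdec (Encodable.encode c), hcomp.comp Computable.encode⟩
  exact h6.of_eq fun c => by rw [Denumerable.ofNat_encode]

/-- a set which is recursive in the zero function is computable -/
theorem comp_of_red_zero {P : ℕ → Prop} [DecidablePred P]
    (h1 : Red (fun n => if P n then 1 else 0) (fun _ => 0)) : ComputablePred P := by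
  have h2 : Nat.Partrec (orc fun n => if P n then 1 else 0) := by
    refine Nat.RecursiveIn.partrec_of_oracle ?_ h1
    intro g hg
    rw [Set.mem_singleton_iff] at hg
    subst hg
    exact Nat.Partrec.zero
  have h3 : Computable fun n => if P n then 1 else 0 := by
    have h4 : Partrec (orc fun n => if P n then 1 else 0) := Partrec.nat_iff.2 h2
    exact h4
  have h5 : Computable fun n => decide ((if P n then 1 else 0) = 1) :=
    (Primrec.eq.decide.to_comp : Computable₂ fun a b : ℕ => decide (a = b)).comp h3
      (Computable.const 1)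
  refine ⟨inferInstance, h5.of_eq fun n => ?_⟩
  by_cases h : P n <;> simp [h]

end Pool.Agent.U44.TD
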