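import Pool.Agent.H109R3.TC.Stmt
import Pool.Agent.Helper583.TTASpace
import Pool.Agent.Helper583.TTInj
import Pool.Agent.Helper583.TTReenum
import Pool.Agent.Helper583.TCJ3

/-!
# The coded presentation

`Y` is a computable metric space with dense isolated points.  The presentation `MC` is the space `Y`
together with isolated points above the points `c n`: above `c n` there are the heights which are
sums of a set of the numbers `1 / 2 ^ s`, where `s` is a stage `≥ n` at which a number `e ≤ n` enters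
the halting problem.  So every point above `c n` has a neighbour at distance `1 / 2 ^ s`.
-/

set_option autoImplicit false

namespace Pool.Agent.U44.TD

open Nat.Partrec (Code)
open Pool.Agent.Helper583.TT
open Filter Topology

/-- the program with number `e` halts on the input `e` within `s` steps -/
def T (e s : ℕ) : Bool := (Code.evaln s (Denumerable.ofNat Code e) e).isSome

theorem primrec_T : Primrec₂ T := by
  show Primrec fun p : ℕ × ℕ => T p.1 p.2
  unfold T
  refine Primrec.option_isSome.comp (Code.primrec_evaln.comp (Primrec.pair (Primrec.pair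
    Primrec.snd ((Primrec.ofNat Code).comp Primrec.fst)) Primrec.fst))

theorem T_mono {e s s' : ℕ} (h : s ≤ s') (hs : T e s = true) : T e s' = true := by
  unfold T at *
  rw [Option.isSome_iff_exists] at *
  obtain ⟨x, hx⟩ := hs
  exact ⟨x, Code.evaln_mono h hx⟩

/-- `e` enters the halting problem at stage `s ≥ n` -/
def D (e n s : ℕ) : Bool := T e (s + 1) && !T e s && decide (n ≤ s)

theorem D_iff {e n s : ℕ} : D e n s = true ↔ T e (s + 1) = true ∧ T e s = false ∧ n ≤ s := by
  unfold D
  simp [and_assoc]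

theorem D_unique {e n s s' : ℕ} (h : D e n s = true) (h' : D e n s' = true) : s = s' := by
  rw [D_iff] at h h'
  rcases lt_trichotomy s s' with hl | hl | hl
  · have := T_mono (show s + 1 ≤ s' by omega) h.1
    rw [h'.2.1] at this
    exact absurd this (by simp)
  · exact hl
  · have := T_mono (show s' + 1 ≤ s by omega) h'.1
    rw [h.2.1] at this
    exact absurd this (by simp)

/-- the number `1 / 2 ^ s` if `e` enters at stage `s ≥ n` -/
noncomputable def r (e n : ℕ) : ℝ := ∑' s, (if D e n s = true then (1 : ℝ) else 0) / 2 ^ s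

theorem r_of {e n s : ℕ} (h : D e n s = true) : r e n = 1 / 2 ^ s := by
  unfold r
  rw [tsum_eq_single s, if_pos h]
  intro s' hs'
  rw [if_neg (fun h' => hs' (D_unique h' h)), zero_div]

theorem r_none {e n : ℕ} (h : ∀ s, ¬ D e n s = true) : r e n = 0 := by
  unfold r
  have : (fun s => (if D e n s = true then (1 : ℝ) else 0) / 2 ^ s) = fun _ => 0 := by
    funext s
    rw [if_neg (h s), zero_div]
  rw [this, tsum_zero]

theorem r_mem (e n : ℕ) : 0 ≤ r e n ∧ r e n ≤ 1 / 2 ^ n := by
  by_cases h : ∃ s, D e n s = true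
  · obtain ⟨s, hs⟩ := h
    rw [r_of hs]
    refine ⟨by positivity, ?_⟩
    exact one_div_le_one_div_of_le (by positivity) (pow_le_pow_right₀ (by norm_num) (D_iff.1 hs).2.2)
  · push Not at h
    rw [r_none fun s => by simpa using h s]
    exact ⟨le_rfl, by positivity⟩

theorem cr_r : CR fun p : ℕ × ℕ => r p.1 p.2 := by
  have hD : Computable fun q : (ℕ × ℕ) × ℕ => D q.1.1 q.1.2 q.2 := by
    unfold D
    have h1 : Primrec fun q : (ℕ × ℕ) × ℕ => T q.1.1 (q.2 + 1) :=
      primrec_T.comp (Primrec.fst.comp Primrec.fst) (Primrec.succ.comp Primrec.snd)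
    have h2 : Primrec fun q : (ℕ × ℕ) × ℕ => T q.1.1 q.2 :=
      primrec_T.comp (Primrec.fst.comp Primrec.fst) Primrec.snd
    have h3 : Primrec fun q : (ℕ × ℕ) × ℕ => decide (q.1.2 ≤ q.2) :=
      (Primrec.nat_le.comp (Primrec.snd.comp Primrec.fst) Primrec.snd).decide
    exact (Primrec.and.comp (Primrec.and.comp h1 (Primrec.not.comp h2)) h3).to_comp
  have h1 : CR fun q : (ℕ × ℕ) × ℕ => if D q.1.1 q.1.2 q.2 = true then ((1 : ℕ) : ℝ) else ((0 : ℕ) : ℝ) :=
    CR.ite hD (CR.nat (Computable.const 1)) (CR.nat (Computable.const 0))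
  refine (CR.tsum h1 (fun p => ?_)).congr fun p => ?_
  · split <;> simp
  · unfold r
    simp

/-- the height with the set of numbers coded by `b` -/
noncomputable def hh (n b : ℕ) : ℝ := ∑ e ∈ Finset.range (n + 1), if b.testBit e = true then r e n else 0

theorem hh_nonneg (n b : ℕ) : 0 ≤ hh n b :=
  Finset.sum_nonneg fun e _ => by
    split
    · exact (r_mem e n).1
    · exact le_rfl

theorem hh_le (n b : ℕ) : hh n b ≤ (n + 1 : ℕ) * (1 / 2 ^ n) := by
  unfold hh
  refine (Finset.sum_le_card_nsmul _ _ (1 / 2 ^ n) fun e _ => ?_).trans ?_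
  · split
    · exact (r_mem e n).2
    · positivity
  · rw [Finset.card_range, nsmul_eq_mul]

theorem cr_hh : CR fun p : ℕ × ℕ => hh p.1 p.2 := by
  have hb : Computable fun q : (ℕ × ℕ) × ℕ => q.1.2.testBit q.2 := by
    have h1 : Computable fun q : (ℕ × ℕ) × ℕ => decide (q.1.2 / 2 ^ q.2 % 2 = 1) := by
      have h2 : Primrec fun q : (ℕ × ℕ) × ℕ => q.1.2 / 2 ^ q.2 % 2 :=
        Primrec.nat_mod.comp (Primrec.nat_div.comp (Primrec.snd.comp Primrec.fst)
          (prim_pow.comp (Primrec.const 2) Primrec.snd)) (Primrec.const 2)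
      exact (Primrec.eq.comp h2 (Primrec.const 1)).decide.to_comp
    refine h1.of_eq fun q => ?_
    rw [Nat.testBit_eq_decide_div_mod_eq]
  have hr : CR fun q : (ℕ × ℕ) × ℕ => r q.2 q.1.1 :=
    cr_r.comp (g := fun q : (ℕ × ℕ) × ℕ => (q.2, q.1.1))
      (Computable.snd.pair (Computable.fst.comp Computable.fst))
  have h1 : CR fun q : (ℕ × ℕ) × ℕ => if q.1.2.testBit q.2 = true then r q.2 q.1.1 else ((0 : ℕ) : ℝ) :=
    CR.ite hb hr (CR.nat (Computable.const 0))
  refine (CR.sum h1 (n := fun p : ℕ × ℕ => p.1 + 1)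
    (Primrec.succ.comp Primrec.fst).to_comp).congr fun p => ?_
  unfold hh
  simp

/-- changing one bit -/
theorem hh_flip {n b e s : ℕ} (he : e ≤ n) (hs : D e n s = true) :
    |hh n b - hh n (b ^^^ 2 ^ e)| = 1 / 2 ^ s := by
  unfold hh
  rw [← Finset.sum_sub_distrib, Finset.sum_eq_single e]
  · rw [Nat.testBit_xor, Nat.testBit_two_pow_self, r_of hs]
    have h0 : (0 : ℝ) ≤ 1 / 2 ^ s := by positivity
    cases b.testBit e
    · simp
    · simp
  · intro e' _ hne
    rw [Nat.testBit_xor, Nat.testBit_two_pow_of_ne (Ne.symm hne), Bool.xor_false, sub_self]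
  · intro h
    exact absurd (Finset.mem_range.2 (Nat.lt_succ_of_le he)) h

/-- the index `m` codes a set of numbers `≤ n` -/
def ok (m : ℕ) : Bool := decide (m.unpair.2 < 2 ^ (m.unpair.1 + 1))

/-- the root -/
def iC (m : ℕ) : ℕ := bif ok m then m.unpair.1 else m

/-- the height -/
noncomputable def hC (m : ℕ) : ℝ := if ok m = true then hh m.unpair.1 m.unpair.2 else 0

theorem ok_pair {n b : ℕ} (h : b < 2 ^ (n + 1)) : ok (Nat.pair n b) = true := by
  unfold ok
  simpa using h

theorem iC_pair {n b : ℕ} (h : b < 2 ^ (n + 1)) : iC (Nat.pair n b) = n := by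
  unfold iC
  rw [ok_pair h]
  simp

theorem hC_pair {n b : ℕ} (h : b < 2 ^ (n + 1)) : hC (Nat.pair n b) = hh n b := by
  unfold hC
  rw [ok_pair h]
  simp

theorem hC_zero (n : ℕ) : hC (Nat.pair n 0) = 0 := by
  rw [hC_pair (by positivity)]
  unfold hh
  simp

theorem comp_ok : Computable ok := by
  unfold ok
  have h2 : Primrec fun m : ℕ => 2 ^ (m.unpair.1 + 1) :=
    prim_pow.comp (Primrec.const 2) (Primrec.succ.comp (Primrec.fst.comp Primrec.unpair))
  exact (Primrec.nat_lt.comp (Primrec.snd.comp Primrec.unpair) h2).decide.to_comp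

theorem comp_iC : Computable iC := by
  unfold iC
  exact Computable.cond comp_ok (Primrec.fst.comp Primrec.unpair).to_comp Computable.id

theorem cr_hC : CR hC := by
  have h1 : CR fun m : ℕ => hh m.unpair.1 m.unpair.2 :=
    cr_hh.comp (g := fun m : ℕ => (m.unpair.1, m.unpair.2)) Primrec.unpair.to_comp
  refine (CR.ite comp_ok h1 (CR.nat (Computable.const 0))).congr fun m => ?_
  unfold hC
  simp

theorem hC_nonneg (m : ℕ) : 0 ≤ hC m := by
  unfold hC
  split
  · exact hh_nonneg _ _
  · exact le_rfl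

theorem hC_le (m : ℕ) : hC m ≤ (iC m + 1 : ℕ) * (1 / 2 ^ iC m) := by
  unfold hC iC
  by_cases h : ok m = true
  · rw [if_pos h, h]
    exact hh_le _ _
  · rw [if_neg h]
    positivity

theorem iC_finite (n : ℕ) : {m | iC m = n}.Finite := by
  apply Set.Finite.subset (s := (fun b => Nat.pair n b) '' Set.Iio (2 ^ (n + 1)) ∪ {n})
  · exact ((Set.finite_Iio _).image _).union (Set.finite_singleton _)
  · intro m hm
    have hm' : iC m = n := hm
    unfold iC at hm'
    by_cases h : ok m = true
    · rw [h, cond_true] at hm'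
      left
      refine ⟨m.unpair.2, ?_, ?_⟩
      · unfold ok at h
        rw [decide_eq_true_iff, hm'] at h
        exact h
      · show Nat.pair n m.unpair.2 = m
        rw [← hm', Nat.pair_unpair]
    · right
      rw [Bool.not_eq_true] at h
      rw [h, cond_false] at hm'
      exact hm'

theorem iC_tendsto : Tendsto iC atTop atTop := by
  rw [← Nat.cofinite_eq_atTop]
  exact Tendsto.cofinite_of_finite_preimage_singleton fun n => iC_finite n

theorem hC_lim : Tendsto hC atTop (𝓝 0) := by
  have h1 : Tendsto (fun n : ℕ => ((n + 1 : ℕ) : ℝ) * (1 / 2 ^ n)) atTop (𝓝 0) := by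
    have h2 := tendsto_pow_const_mul_const_pow_of_abs_lt_one 1 (r := (1 : ℝ) / 2)
      (by rw [abs_of_nonneg] <;> norm_num)
    have h3 := tendsto_pow_atTop_nhds_zero_of_lt_one (r := (1:ℝ) / 2) (by norm_num) (by norm_num)
    have h4 := h2.add h3
    rw [add_zero] at h4
    refine h4.congr fun n => ?_
    push_cast
    rw [one_div_pow]
    ring
  exact squeeze_zero hC_nonneg hC_le (h1.comp iC_tendsto)

variable {Y : Type} [MetricSpace Y] (c : ℕ → Y)

/-- the points of the coded presentation -/
noncomputable def aC (m : ℕ) : ↥(TS c iC hC) := ⟨(c (iC m), hC m), Or.inr ⟨m, rfl⟩⟩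

variable {c}

theorem aC_dense (hd : DenseRange c) : DenseRange (aC c) := by
  apply dense_of hd
  · intro n
    refine ⟨Nat.pair n 0, ?_⟩
    show (c (iC (Nat.pair n 0)), hC (Nat.pair n 0)) = (c n, 0)
    rw [iC_pair (by positivity), hC_zero]
  · intro e
    exact ⟨e, rfl⟩

theorem cr_aC (hc : CR fun p : ℕ × ℕ => dist (c p.1) (c p.2)) :
    CR fun p : ℕ × ℕ => dist (aC c p.1) (aC c p.2) := by
  have h3 := hc.comp ((comp_iC.comp Computable.fst).pair (comp_iC.comp Computable.snd) :
    Computable fun p : ℕ × ℕ => (iC p.1, iC p.2))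
  have h4 := (cr_hC.comp (Computable.fst (α := ℕ) (β := ℕ))).absdiff
    (cr_hC.comp (Computable.snd (α := ℕ) (β := ℕ)))
  exact (h3.max h4).congr fun p => rfl

/-- the coded presentation -/
noncomputable def MC [CompleteSpace Y] (hd : DenseRange c)
    (hc : CR fun p : ℕ × ℕ => dist (c p.1) (c p.2)) : CMS :=
  haveI : CompleteSpace ↥(TS c iC hC) := (ts_closed hC_lim).completeSpace_coe
  { Y := ↥(TS c iC hC)
    c := aC c
    dense := aC_dense hd
    comp := comp_of_cr (cr_aC hc) }

/-- every point has a neighbour at distance `1 / 2 ^ s` -/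
theorem exists_flip {m e s : ℕ} (he : e ≤ iC m) (hs : D e (iC m) s = true) :
    ∃ m', dist (aC c m) (aC c m') = 1 / 2 ^ s := by
  -- reduction to a code
  obtain ⟨n, b, hb, hn, h1⟩ : ∃ n b, b < 2 ^ (n + 1) ∧ n = iC m ∧
      (aC c m).1 = (c n, hh n b) := by
    by_cases h : ok m = true
    · refine ⟨m.unpair.1, m.unpair.2, by simpa [ok] using h, ?_, ?_⟩
      · unfold iC; rw [h]; rfl
      · show (c (iC m), hC m) = _
        unfold iC hC
        rw [if_pos h, h]
        rfl
    · refine ⟨m, 0, by positivity, ?_, ?_⟩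
      · unfold iC
        rw [Bool.not_eq_true] at h
        rw [h]; rfl
      · show (c (iC m), hC m) = _
        unfold iC hC
        rw [if_neg h]
        rw [Bool.not_eq_true] at h
        rw [h, cond_false]
        unfold hh
        simp
  rw [← hn] at he hs
  have hb' : b ^^^ 2 ^ e < 2 ^ (n + 1) :=
    Nat.xor_lt_two_pow hb (Nat.pow_lt_pow_right (by norm_num) (Nat.lt_succ_of_le he))
  refine ⟨Nat.pair n (b ^^^ 2 ^ e), ?_⟩
  have h2 : (aC c (Nat.pair n (b ^^^ 2 ^ e))).1 = (c n, hh n (b ^^^ 2 ^ e)) := by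
    show (c (iC _), hC _) = _
    rw [iC_pair hb', hC_pair hb']
  rw [Subtype.dist_eq, h1, h2, Prod.dist_eq]
  show max (dist (c n) (c n)) (dist (hh n b) (hh n (b ^^^ 2 ^ e))) = 1 / 2 ^ s
  rw [dist_self, Real.dist_eq, hh_flip he hs]
  exact max_eq_right (by positivity)

end Pool.Agent.U44.TD
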