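import Pool.Agent.U44.TD.Gad

/-!
# Decoding the halting problem

`MA` is the presentation with the isolated points `(c i, 1 / 2 ^ i)` of known radius.  Every
homeomorphism from the coded presentation onto `MA` computes the halting problem.
-/

set_option autoImplicit false

namespace Pool.Agent.U44.TD

open Pool.Agent.Helper583.TT
open Pool.Agent.Helper583.TC (orc Red)
open Pool.Agent.H109R3.TC (CompMapIn)
open Pool.Agent.Helper583.TC.J3 (ri_comp ri_pair ri_comput ri_prim ri_pre ri_search)
open Filter Topology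

open Classical in
/-- the characteristic function of the halting problem -/
noncomputable def chH (e : ℕ) : ℕ := if ∃ s, T e s = true then 1 else 0

variable {Y : Type} [MetricSpace Y] {c : ℕ → Y}

theorem half_half (i : ℕ) : (1 : ℝ) / 2 ^ (i + 2) < 1 / 2 ^ (i + 1) :=
  one_div_lt_one_div_of_lt (by positivity) (pow_lt_pow_right₀ (by norm_num) (by omega))

/-- the radius of the isolated point number `i` -/
theorem eq_of_close {p : ↥(TS c id fun e => (1 : ℝ) / 2 ^ e)} {i : ℕ}
    (h : dist p (aM c (2 * i + 1)) ≤ 1 / 2 ^ (i + 2)) : p = aM c (2 * i + 1) := by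
  rw [Subtype.dist_eq, aM_odd, Prod.dist_eq] at h
  have h2 : |p.1.2 - 1 / 2 ^ i| ≤ 1 / 2 ^ (i + 2) := by
    have := le_trans (le_max_right _ _) h
    rwa [Real.dist_eq] at this
  have hlt := half_half i
  have e1 : (1 : ℝ) / 2 ^ i = 2 * (1 / 2 ^ (i + 1)) := by
    rw [pow_succ]; field_simp
  have hp1 : (0 : ℝ) < 1 / 2 ^ (i + 1) := by positivity
  have hm := abs_le.1 h2
  rcases p.2 with h0 | ⟨j, hj⟩
  · rw [h0] at hm
    linarith [hm.1]
  · have hj2 : p.1.2 = 1 / 2 ^ j := by rw [hj]
    rcases lt_trichotomy j i with hl | hl | hl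
    · have h3 : (1 : ℝ) / 2 ^ (i - 1) ≤ 1 / 2 ^ j :=
        one_div_le_one_div_of_le (by positivity) (pow_le_pow_right₀ (by norm_num) (by omega))
      have e2 : (1 : ℝ) / 2 ^ (i - 1) = 2 * (1 / 2 ^ i) := by
        obtain ⟨k, rfl⟩ : ∃ k, i = k + 1 := ⟨i - 1, by omega⟩
        rw [Nat.add_sub_cancel, pow_succ]; field_simp
      rw [hj2] at hm
      linarith [hm.2]
    · subst hl
      apply Subtype.ext
      rw [hj, aM_odd]
      rfl
    · have h3 : (1 : ℝ) / 2 ^ j ≤ 1 / 2 ^ (i + 1) :=
        one_div_le_one_div_of_le (by positivity) (pow_le_pow_right₀ (by norm_num) (by omega))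
      rw [hj2] at hm
      linarith [hm.1]

omit [MetricSpace Y] in
theorem aM_eq (hinj : Function.Injective c) {v i : ℕ} (h : aM c v = aM c (2 * i + 1)) :
    v = 2 * i + 1 := by
  have h1 : (aM c v).1 = (c i, 1 / 2 ^ i) := by rw [h, aM_odd]
  rcases Nat.even_or_odd' v with ⟨k, rfl | rfl⟩
  · rw [aM_even] at h1
    have := (Prod.ext_iff.1 h1).2
    have hp : (0 : ℝ) < 1 / 2 ^ i := by positivity
    simp only at this
    linarith
  · rw [aM_odd] at h1
    have := hinj (Prod.ext_iff.1 h1).1
    omega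

/-- the searched tuple is found -/
def fnd (F : List ℕ → ℕ → Option ℕ) (al : List ℕ) (e m i L : ℕ) : Bool :=
  decide (e ≤ iC m) &&
    decide (F al (Encodable.encode (List.replicate L m, i + 2)) = some (2 * i + 1))

theorem pre_const (m L : ℕ) : pre (fun _ => m) L = List.replicate L m := by
  unfold pre
  simp [List.map_const']

variable [CompleteSpace Y] {hd : DenseRange c}
  {hc : CR fun p : ℕ × ℕ => dist (c p.1) (c p.2)}

/-- what is found is correct -/
theorem fnd_sound (φ : List ℕ × ℕ →. ℕ) {h : (MC hd hc).Y ≃ₜ (MA hd hc).Y}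
    (hspec : ∀ x p, IsName (MC hd hc) p x → ∃ q, IsName (MA hd hc) q (h x) ∧
      ∀ n, (∃ k, q n ∈ φ (pre p k, n)) ∧ ∀ k m, m ∈ φ (pre p k, n) → m = q n)
    {e m i L : ℕ} (hem : e ≤ iC m) (hf : 2 * i + 1 ∈ φ (pre (fun _ => m) L, i + 2))
    (hH : ∃ s, T e s = true) : T e (max (iC m) L + 1) = true := by
  classical
  by_contra hno
  -- the stage
  have hfind := Nat.find_spec hH
  have hmin : ∀ s < Nat.find hH, ¬ T e s = true := fun s hs => Nat.find_min hH hs
  obtain ⟨t, ht⟩ : ∃ t, t = Nat.find hH := ⟨_, rfl⟩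
  rw [← ht] at hfind hmin
  have ht0 : max (iC m) L + 1 < t := by
    by_contra hcon
    exact hno (T_mono (by omega) hfind)
  obtain ⟨s, rfl⟩ : ∃ s, t = s + 1 := ⟨t - 1, by omega⟩
  have hs1 : iC m ≤ s := by have := le_max_left (iC m) L; omega
  have hs2 : L ≤ s := by have := le_max_right (iC m) L; omega
  have hD : D e (iC m) s = true :=
    D_iff.2 ⟨hfind, by simpa using hmin s (Nat.lt_succ_self s), hs1⟩
  obtain ⟨m', hm'⟩ := exists_flip (c := c) hem hD
  -- both points have names which start with `m, ..., m`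
  have key : ∀ x : (MC hd hc).Y, dist ((MC hd hc).c m) x ≤ 1 / 2 ^ s →
      h x = (MA hd hc).c (2 * i + 1) := by
    intro x hx
    obtain ⟨p0, hp0⟩ : ∃ p : ℕ → ℕ, IsName (MC hd hc) p x := by
      have h1 : ∀ k : ℕ, ∃ j, dist ((MC hd hc).c j) x ≤ 1 / 2 ^ k := by
        intro k
        obtain ⟨j, hj⟩ := (MC hd hc).dense.exists_dist_lt x
          (show (0:ℝ) < 1 / 2 ^ k by positivity)
        exact ⟨j, by rw [dist_comm]; exact hj.le⟩
      choose p hp using h1
      exact ⟨p, hp⟩
    let p : ℕ → ℕ := fun k => if k < L then m else p0 k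
    have hp : IsName (MC hd hc) p x := by
      intro k
      by_cases hk : k < L
      · have : p k = m := if_pos hk
        rw [this]
        refine hx.trans (one_div_le_one_div_of_le (by positivity)
          (pow_le_pow_right₀ (by norm_num) (by omega)))
      · have : p k = p0 k := if_neg hk
        rw [this]
        exact hp0 k
    obtain ⟨q, hq, hq2⟩ := hspec x p hp
    have hpre : pre p L = pre (fun _ => m) L := by
      unfold pre
      apply List.map_congr_left
      intro k hk
      exact if_pos (List.mem_range.1 hk)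
    have h3 := (hq2 (i + 2)).2 L (2 * i + 1) (by rw [hpre]; exact hf)
    have h4 := hq (i + 2)
    rw [← h3] at h4
    rw [dist_comm] at h4
    exact eq_of_close h4
  have h1 := key ((MC hd hc).c m) (by rw [dist_self]; positivity)
  have h2 := key ((MC hd hc).c m') hm'.le
  have h3 : (MC hd hc).c m = (MC hd hc).c m' := h.injective (h1.trans h2.symm)
  have h4 : dist ((MC hd hc).c m) ((MC hd hc).c m') = 1 / 2 ^ s := hm'
  rw [← h3, dist_self] at h4
  have : (0 : ℝ) < 1 / 2 ^ s := by positivity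
  linarith

/-- something is found -/
theorem exists_fnd (hinj : Function.Injective c) (φ : List ℕ × ℕ →. ℕ)
    {h : (MC hd hc).Y ≃ₜ (MA hd hc).Y}
    (hspec : ∀ x p, IsName (MC hd hc) p x → ∃ q, IsName (MA hd hc) q (h x) ∧
      ∀ n, (∃ k, q n ∈ φ (pre p k, n)) ∧ ∀ k m, m ∈ φ (pre p k, n) → m = q n)
    (e : ℕ) : ∃ m i L, e ≤ iC m ∧ 2 * i + 1 ∈ φ (pre (fun _ => m) L, i + 2) := by
  classical
  -- the points with small roots
  have hfin : (⋃ n ∈ Finset.range e, (fun m => (MC hd hc).c m) '' {m | iC m = n}).Finite := by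
    apply Set.Finite.biUnion (Finset.finite_toSet _)
    intro n _
    exact (iC_finite n).image _
  have hinjq : Function.Injective fun i : ℕ => h.symm ((MA hd hc).c (2 * i + 1)) := by
    intro i j hij
    have h1 := h.symm.injective hij
    have h2 := aM_eq hinj (v := 2 * i + 1) (i := j) h1
    omega
  obtain ⟨i, hi⟩ : ∃ i : ℕ, h.symm ((MA hd hc).c (2 * i + 1)) ∉
      (⋃ n ∈ Finset.range e, (fun m => (MC hd hc).c m) '' {m | iC m = n}) := by
    by_contra hcon
    push Not at hcon
    exact Set.infinite_range_of_injective hinjq (hfin.subset (Set.range_subset_iff.2 hcon))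
  -- the preimage is a point of the dense sequence
  have hopen : IsOpen ({(MA hd hc).c (2 * i + 1)} : Set (MA hd hc).Y) := by
    rw [Metric.isOpen_singleton_iff]
    refine ⟨1 / 2 ^ (i + 2), by positivity, fun y hy => ?_⟩
    exact eq_of_close hy.le
  have hopen2 : IsOpen ({h.symm ((MA hd hc).c (2 * i + 1))} : Set (MC hd hc).Y) := by
    have h1 := hopen.preimage h.continuous
    have h2 : h ⁻¹' {(MA hd hc).c (2 * i + 1)} = {h.symm ((MA hd hc).c (2 * i + 1))} := by
      ext x
      simp only [Set.mem_preimage, Set.mem_singleton_iff]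
      constructor
      · intro hx
        rw [← hx, h.symm_apply_apply]
      · intro hx
        rw [hx, h.apply_symm_apply]
    rwa [h2] at h1
  obtain ⟨m, hm⟩ := (MC hd hc).dense.exists_mem_open hopen2 ⟨_, rfl⟩
  have hm' : (MC hd hc).c m = h.symm ((MA hd hc).c (2 * i + 1)) := hm
  have hiC : e ≤ iC m := by
    by_contra hlt
    apply hi
    rw [← hm']
    simp only [Set.mem_iUnion]
    exact ⟨iC m, Finset.mem_range.2 (by omega), m, rfl, rfl⟩
  obtain ⟨q, hq, hq2⟩ := hspec ((MC hd hc).c m) (fun _ => m)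
    (fun k => by rw [dist_self]; positivity)
  have hh : h ((MC hd hc).c m) = (MA hd hc).c (2 * i + 1) := by
    rw [hm', h.apply_symm_apply]
  have h5 := hq (i + 2)
  rw [hh] at h5
  have h6 := aM_eq hinj (eq_of_close h5)
  obtain ⟨L, hL⟩ := (hq2 (i + 2)).1
  refine ⟨m, i, L, hiC, ?_⟩
  rw [h6] at hL
  exact hL

theorem primrec_fnd {F : List ℕ → ℕ → Option ℕ} (hF : Primrec₂ F) :
    Computable fun p : List ℕ × ℕ × ℕ × ℕ × ℕ => fnd F p.1 p.2.1 p.2.2.1 p.2.2.2.1 p.2.2.2.2 := by
  unfold fnd
  have hi : Computable fun p : List ℕ × ℕ × ℕ × ℕ × ℕ => p.2.2.2.1 :=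
    (Primrec.fst.comp (Primrec.snd.comp (Primrec.snd.comp Primrec.snd))).to_comp
  have hm : Computable fun p : List ℕ × ℕ × ℕ × ℕ × ℕ => p.2.2.1 :=
    (Primrec.fst.comp (Primrec.snd.comp Primrec.snd)).to_comp
  have hL : Primrec fun p : List ℕ × ℕ × ℕ × ℕ × ℕ => p.2.2.2.2 :=
    Primrec.snd.comp (Primrec.snd.comp (Primrec.snd.comp Primrec.snd))
  have h1 : Computable fun p : List ℕ × ℕ × ℕ × ℕ × ℕ => decide (p.2.1 ≤ iC p.2.2.1) :=
    (Primrec.nat_le.decide.to_comp : Computable₂ fun a b : ℕ => decide (a ≤ b)).comp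
      (Primrec.fst.comp Primrec.snd).to_comp (comp_iC.comp hm)
  have h2 : Primrec fun p : List ℕ × ℕ × ℕ × ℕ × ℕ =>
      decide (F p.1 (Encodable.encode (List.replicate p.2.2.2.2 p.2.2.1, p.2.2.2.1 + 2)) =
        some (2 * p.2.2.2.1 + 1)) := by
    have h3 : Primrec fun p : List ℕ × ℕ × ℕ × ℕ × ℕ => List.replicate p.2.2.2.2 p.2.2.1 := by
      have h4 : Primrec fun p : List ℕ × ℕ × ℕ × ℕ × ℕ =>
          (List.range p.2.2.2.2).map fun _ => p.2.2.1 :=
        Primrec.list_map (Primrec.list_range.comp hL)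
          ((Primrec.fst.comp (Primrec.snd.comp Primrec.snd)).comp Primrec.fst)
      refine h4.of_eq fun p => ?_
      simp [List.map_const']
    have hi' : Primrec fun p : List ℕ × ℕ × ℕ × ℕ × ℕ => p.2.2.2.1 :=
      Primrec.fst.comp (Primrec.snd.comp (Primrec.snd.comp Primrec.snd))
    have h5 : Primrec fun p : List ℕ × ℕ × ℕ × ℕ × ℕ =>
        F p.1 (Encodable.encode (List.replicate p.2.2.2.2 p.2.2.1, p.2.2.2.1 + 2)) :=
      hF.comp Primrec.fst (Primrec.encode.comp (h3.pair
        (Primrec.nat_add.comp hi' (Primrec.const 2))))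
    have h6 : Primrec fun p : List ℕ × ℕ × ℕ × ℕ × ℕ => some (2 * p.2.2.2.1 + 1) :=
      Primrec.option_some.comp (Primrec.succ.comp (Primrec.nat_mul.comp (Primrec.const 2) hi'))
    exact (Primrec.eq.comp h5 h6).decide
  exact (Primrec.and.to_comp : Computable₂ and).comp h1 h2.to_comp

/-- the answer -/
def RR (F : List ℕ → ℕ → Option ℕ) (x : (ℕ × ℕ × ℕ × ℕ × ℕ) × List ℕ) : ℕ :=
  bif fnd F x.2 x.1.1 x.1.2.1 x.1.2.2.1 x.1.2.2.2.1
  then (bif T x.1.1 (max (iC x.1.2.1) x.1.2.2.2.1 + 1) then 2 else 1)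
  else 0

theorem comp_iC' {α : Type} [Primcodable α] {f : α → ℕ} (hf : Computable f) :
    Computable fun x => iC (f x) := comp_iC.comp hf

theorem comp_T' {α : Type} [Primcodable α] {f g : α → ℕ} (hf : Computable f)
    (hg : Computable g) : Computable fun x => T (f x) (g x) := primrec_T.to_comp.comp hf hg

theorem comp_max' {α : Type} [Primcodable α] {f g : α → ℕ} (hf : Computable f)
    (hg : Computable g) : Computable fun x => max (f x) (g x) :=
  Primrec.nat_max.to_comp.comp hf hg

theorem comp_fnd' {α : Type} [Primcodable α] {F : List ℕ → ℕ → Option ℕ} (hF : Primrec₂ F)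
    {u : α → List ℕ} {f g h k : α → ℕ} (hu : Computable u) (hf : Computable f)
    (hg : Computable g) (hh : Computable h) (hk : Computable k) :
    Computable fun x => fnd F (u x) (f x) (g x) (h x) (k x) :=
  (primrec_fnd hF).comp (g := fun x => (u x, f x, g x, h x, k x))
    (hu.pair (hf.pair (hg.pair (hh.pair hk))))

theorem comp_RR' {α : Type} [Primcodable α] {F : List ℕ → ℕ → Option ℕ} (hF : Primrec₂ F)
    {u : α → List ℕ} {f g h k : α → ℕ} (hu : Computable u) (hf : Computable f)
    (hg : Computable g) (hh : Computable h) (hk : Computable k) :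
    Computable fun x => bif fnd F (u x) (f x) (g x) (h x) (k x)
      then (bif T (f x) (max (iC (g x)) (k x) + 1) then 2 else 1) else 0 := by
  have h1 := comp_fnd' hF hu hf hg hh hk
  have h3 := comp_max' (comp_iC' hg) hk
  have h4 : Computable fun x => max (iC (g x)) (k x) + 1 := Computable.succ.comp h3
  have h2 := comp_T' hf h4
  have h5 : Computable fun x => bif T (f x) (max (iC (g x)) (k x) + 1) then 2 else 1 :=
    Computable.cond h2 (Computable.const 2) (Computable.const 1)
  exact Computable.cond h1 h5 (Computable.const 0)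

theorem comp_RR {F : List ℕ → ℕ → Option ℕ} (hF : Primrec₂ F) : Computable (RR F) := by
  have he : Computable fun x : (ℕ × ℕ × ℕ × ℕ × ℕ) × List ℕ => x.1.1 :=
    (Primrec.fst.comp Primrec.fst).to_comp
  have hm : Computable fun x : (ℕ × ℕ × ℕ × ℕ × ℕ) × List ℕ => x.1.2.1 :=
    (Primrec.fst.comp (Primrec.snd.comp Primrec.fst)).to_comp
  have hi : Computable fun x : (ℕ × ℕ × ℕ × ℕ × ℕ) × List ℕ => x.1.2.2.1 :=
    (Primrec.fst.comp (Primrec.snd.comp (Primrec.snd.comp Primrec.fst))).to_comp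
  have hL : Computable fun x : (ℕ × ℕ × ℕ × ℕ × ℕ) × List ℕ => x.1.2.2.2.1 :=
    (Primrec.fst.comp (Primrec.snd.comp (Primrec.snd.comp (Primrec.snd.comp Primrec.fst)))).to_comp
  have hu : Computable fun x : (ℕ × ℕ × ℕ × ℕ × ℕ) × List ℕ => x.2 := Computable.snd
  exact comp_RR' hF hu he hm hi hL

/-- the answer, on codes -/
def RN (F : List ℕ → ℕ → Option ℕ) (z : ℕ) : ℕ :=
  RR F ((Encodable.decode (α := (ℕ × ℕ × ℕ × ℕ × ℕ) × List ℕ) z).getD default)

theorem comp_RN {F : List ℕ → ℕ → Option ℕ} (hF : Primrec₂ F) : Computable (RN F) :=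
  (comp_RR hF).comp (Primrec.option_getD.comp Primrec.decode (Primrec.const default)).to_comp

/-- the last entry -/
def kN (p : ℕ) : ℕ := ((Encodable.decode (α := ℕ × ℕ × ℕ × ℕ × ℕ) p).getD default).2.2.2.2

theorem primrec_kN : Primrec kN :=
  Primrec.snd.comp (Primrec.snd.comp (Primrec.snd.comp (Primrec.snd.comp
    (Primrec.option_getD.comp Primrec.decode (Primrec.const default)))))

/-- the search function -/
def QN (F : List ℕ → ℕ → Option ℕ) (a : ℕ → ℕ) (p : ℕ) : ℕ :=
  RN F (Nat.pair p (Encodable.encode (Pool.Agent.Helper583.TC.pre a (kN p))))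

theorem ri_QN {F : List ℕ → ℕ → Option ℕ} (hF : Primrec₂ F) (a : ℕ → ℕ) :
    Nat.RecursiveIn {orc a} (orc (QN F a)) := by
  have h1 : Nat.RecursiveIn {orc a} (orc fun L =>
      Encodable.encode (Pool.Agent.Helper583.TC.pre a L)) :=
    ri_pre (Nat.RecursiveIn.oracle _ rfl)
  have h2 : Nat.RecursiveIn {orc a} (orc fun p =>
      Encodable.encode (Pool.Agent.Helper583.TC.pre a (kN p))) :=
    ri_comp (f := fun L => Encodable.encode (Pool.Agent.Helper583.TC.pre a L)) (g := kN) h1
      (ri_prim primrec_kN)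
  have h3 : Nat.RecursiveIn {orc a} (orc fun p : ℕ => p) := ri_prim (f := fun p => p) Primrec.id
  have h4 := ri_pair h3 h2
  exact ri_comp (f := RN F) (ri_comput (comp_RN hF)) h4

theorem QN_eq (F : List ℕ → ℕ → Option ℕ) (a : ℕ → ℕ) (e m i L k : ℕ) :
    QN F a (Nat.pair e (Nat.pair m (Nat.pair i (Nat.pair L k)))) =
      bif fnd F (Pool.Agent.Helper583.TC.pre a k) e m i L then
        (bif T e (max (iC m) L + 1) then 2 else 1) else 0 := by
  have h1 : kN (Nat.pair e (Nat.pair m (Nat.pair i (Nat.pair L k)))) = k := by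
    unfold kN
    have h2 : Nat.pair e (Nat.pair m (Nat.pair i (Nat.pair L k))) =
      Encodable.encode (e, m, i, L, k) := rfl
    rw [h2, Encodable.encodek, Option.getD_some]
  unfold QN RN
  rw [h1]
  have h3 : Nat.pair (Nat.pair e (Nat.pair m (Nat.pair i (Nat.pair L k))))
      (Encodable.encode (Pool.Agent.Helper583.TC.pre a k)) =
      Encodable.encode ((e, m, i, L, k), Pool.Agent.Helper583.TC.pre a k) := rfl
  rw [h3, Encodable.encodek, Option.getD_some]
  rfl

/-- Every homeomorphism from the coded presentation onto `MA` which is computable relative to `a`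
computes the halting problem from `a`. -/
theorem red_chH (hinj : Function.Injective c) {a : ℕ → ℕ} {h : (MC hd hc).Y ≃ₜ (MA hd hc).Y}
    (hcomp : CompMapIn a (MC hd hc) (MA hd hc) h) : Red chH a := by
  classical
  obtain ⟨φ, hφ, hspec⟩ := hcomp
  obtain ⟨F, hF, hmon, hFs⟩ := Pool.Agent.Helper583.TC.J2.NF.normal_form a _ hφ
  have key : ∀ (l : List ℕ) (n m : ℕ), m ∈ φ (l, n) ↔
      ∃ k, F (Pool.Agent.Helper583.TC.J2.NF.pre a k) (Encodable.encode (l, n)) = some m := by
    intro l n m
    rw [← hFs]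
    simp
  refine ri_search (ri_QN hF a) (fun e => ?_) (fun e s hs => ?_)
  · obtain ⟨m, i, L, h1, h2⟩ := exists_fnd hinj φ hspec e
    obtain ⟨k, hk⟩ := (key _ _ _).1 h2
    refine ⟨Nat.pair m (Nat.pair i (Nat.pair L k)), ?_⟩
    rw [QN_eq]
    have h3 : fnd F (Pool.Agent.Helper583.TC.pre a k) e m i L = true := by
      unfold fnd
      rw [Bool.and_eq_true, decide_eq_true_iff, decide_eq_true_iff, ← pre_const]
      exact ⟨h1, hk⟩
    rw [h3, cond_true]
    cases T e (max (iC m) L + 1) <;> simp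
  · obtain ⟨m, i, L, k, rfl⟩ : ∃ m i L k,
        s = Nat.pair m (Nat.pair i (Nat.pair L k)) :=
      ⟨s.unpair.1, s.unpair.2.unpair.1, s.unpair.2.unpair.2.unpair.1,
        s.unpair.2.unpair.2.unpair.2, by simp⟩
    rw [QN_eq] at hs ⊢
    cases hf : fnd F (Pool.Agent.Helper583.TC.pre a k) e m i L with
    | false => rw [hf] at hs; simp at hs
    | true =>
      rw [cond_true]
      unfold fnd at hf
      rw [Bool.and_eq_true, decide_eq_true_iff, decide_eq_true_iff, ← pre_const] at hf
      have h2 : 2 * i + 1 ∈ φ (pre (fun _ => m) L, i + 2) := (key _ _ _).2 ⟨k, hf.2⟩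
      unfold chH
      by_cases hH : ∃ s, T e s = true
      · rw [if_pos hH, fnd_sound φ hspec hf.1 h2 hH]
        rfl
      · rw [if_neg hH]
        have : T e (max (iC m) L + 1) = false := by
          by_contra hc'
          exact hH ⟨_, by simpa using hc'⟩
        rw [this]
        rfl

end Pool.Agent.U44.TD
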