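import Pool.Agent.U44.TD.Low

/-!
# The halting problem computes homeomorphisms between presentations of `ℕ`
-/

set_option autoImplicit false

namespace Pool.Agent.U44.TD

open Nat.Partrec (Code)
open Pool.Agent.Helper583.TT
open Pool.Agent.Helper583.TC (orc Red)
open Pool.Agent.H109R3.TC (CompMapIn)
open Pool.Agent.Helper583.TC.J3 (ri_comp ri_pair ri_comput ri_prim ri_pre ri_search)
open Pool.Agent.Helper583.TC.J2 (srchO srchO_some srchO_ne primrec_srchO)
open Filter Topology

/-- `e` is in the halting problem -/
theorem exists_T_iff (e : ℕ) :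
    (∃ s, T e s = true) ↔ ((Denumerable.ofNat Code e).eval e).Dom := by
  unfold T
  rw [Part.dom_iff_mem]
  constructor
  · rintro ⟨s, hs⟩
    obtain ⟨x, hx⟩ := Option.isSome_iff_exists.1 hs
    exact ⟨x, Code.evaln_complete.2 ⟨s, hx⟩⟩
  · rintro ⟨x, hx⟩
    obtain ⟨s, hs⟩ := Code.evaln_complete.1 hx
    exact ⟨s, Option.isSome_iff_exists.2 ⟨x, hs⟩⟩

/-- every c.e. set is many-one reducible to the halting problem -/
theorem many_one {P : ℕ → Prop} (hP : REPred P) :
    ∃ f : ℕ → ℕ, Computable f ∧ ∀ n, P n ↔ ∃ s, T (f n) s = true := by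
  obtain ⟨c, hc⟩ : ∃ c : Code, ∀ n, P n ↔ (c.eval n).Dom := by
    have h1 : Partrec fun a : ℕ => (Part.assert (P a) fun _ => Part.some ()) := hP
    have h2 : Nat.Partrec fun n => (Part.assert (P n) fun _ => Part.some ()).map
        Encodable.encode := by
      have h3 := h1
      unfold Partrec at h3
      refine h3.of_eq fun n => ?_
      simp
    obtain ⟨c, hc⟩ := Code.exists_code.1 h2
    refine ⟨c, fun n => ?_⟩
    rw [show c.eval n = (fun n => (Part.assert (P n) fun _ => Part.some ()).map
        Encodable.encode) n from congrFun hc n]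
    simp [Part.assert]
  refine ⟨fun n => Encodable.encode (Code.comp c (Code.const n)), ?_, fun n => ?_⟩
  · exact Computable.encode.comp ((Code.primrec₂_comp.comp (Primrec.const c)
      Code.primrec_const).to_comp)
  · rw [exists_T_iff, Denumerable.ofNat_encode]
    have h4 : ∀ x, (Code.comp c (Code.const n)).eval x = c.eval n := by
      intro x
      show (Code.eval (Code.const n) x).bind (Code.eval c) = c.eval n
      rw [Code.eval_const]
      exact Part.bind_some n _
    rw [h4]
    exact hc n

theorem red_chH_of_re {P : ℕ → Prop} [DecidablePred P] (hP : REPred P) :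
    Red (fun n => if P n then 1 else 0) chH := by
  obtain ⟨f, hf, h⟩ := many_one hP
  have h1 : (fun n => if P n then 1 else 0) = fun n => chH (f n) := by
    funext n
    unfold chH
    by_cases hn : P n
    · rw [if_pos hn, if_pos ((h n).1 hn)]
    · rw [if_neg hn, if_neg fun h' => hn ((h n).2 h')]
  rw [h1]
  exact ri_comp (f := chH) (g := f) (Nat.RecursiveIn.oracle _ rfl) (ri_comput hf)

theorem re_of_comp {R : ℕ → ℕ → Bool} (hR : Computable₂ R) :
    REPred fun n => ∃ k, R n k = true := by
  have h1 : Partrec fun n => Nat.rfind fun k => Part.some (R n k) := Partrec.rfind hR.partrec₂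
  refine h1.dom_re.of_eq fun n => ?_
  rw [Part.dom_iff_mem]
  constructor
  · rintro ⟨k, hk⟩
    have := Nat.rfind_spec hk
    exact ⟨k, (Part.mem_some_iff.1 this).symm⟩
  · rintro ⟨k, hk⟩
    rw [← Part.dom_iff_mem]
    exact Nat.rfind_dom.2 ⟨k, Part.mem_some_iff.2 hk.symm, fun _ => trivial⟩

/-- membership of the halting problem -/
theorem halting_re : REPred fun e : ℕ => ∃ s, T e s = true :=
  re_of_comp primrec_T.to_comp

/-- a functional which reads an initial segment of a function recursive in `a` -/
theorem recIn_of_prefix {a G : ℕ → ℕ} (hG : Red G a) {P : (List ℕ × ℕ) × List ℕ → Option ℕ}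
    (hP : Computable P) {B : List ℕ × ℕ → ℕ} (hB : Computable B) :
    RecursiveIn {orc a} fun x : List ℕ × ℕ =>
      (P (x, Pool.Agent.Helper583.TC.pre G (B x)) : Part ℕ) := by
  have hB' : Computable fun z : ℕ =>
      ((Encodable.decode (α := List ℕ × ℕ) z).map B).getD 0 := by
    have h1 : Computable fun z : ℕ => (Encodable.decode (α := List ℕ × ℕ) z).map B :=
      Computable.option_map Computable.decode (hB.comp Computable.snd)
    exact Computable.option_getD h1 (Computable.const 0)
  have hU : Nat.RecursiveIn {orc a} (orc fun z : ℕ => Nat.pair z (Encodable.encode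
      (Pool.Agent.Helper583.TC.pre G
        (((Encodable.decode (α := List ℕ × ℕ) z).map B).getD 0)))) := by
    have h1 : Nat.RecursiveIn {orc a} (orc fun L =>
      Encodable.encode (Pool.Agent.Helper583.TC.pre G L)) := ri_pre hG
    have h2 := ri_comp (f := fun L => Encodable.encode (Pool.Agent.Helper583.TC.pre G L))
      (g := fun z : ℕ => ((Encodable.decode (α := List ℕ × ℕ) z).map B).getD 0) h1 (ri_comput hB')
    exact ri_pair (f := fun z => z) (ri_prim (f := fun p => p) Primrec.id) h2
  have hψ : Nat.Partrec fun y : ℕ =>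
      ((Encodable.decode (α := (List ℕ × ℕ) × List ℕ) y : Part ((List ℕ × ℕ) × List ℕ))).bind
        fun x => (P x : Part ℕ) := by
    have h1 : Partrec fun y : ℕ =>
      ((Encodable.decode (α := (List ℕ × ℕ) × List ℕ) y : Part ((List ℕ × ℕ) × List ℕ))).bind
        fun x => (P x : Part ℕ) :=
      Partrec.bind Computable.decode.ofOption ((hP.comp Computable.snd).ofOption)
    exact Partrec.nat_iff.1 h1
  have h1 := Nat.RecursiveIn.comp (Nat.Partrec.recursiveIn (O := {orc a}) hψ) hU
  show Nat.RecursiveIn {orc a} _
  refine h1.of_eq fun z => ?_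
  simp only [orc, Part.bind_eq_bind, Part.bind_some]
  rw [Encodable.decode_prod_val]
  simp only [Nat.unpair_pair, Encodable.encodek]
  cases hz : Encodable.decode (α := List ℕ × ℕ) z with
  | none => simp
  | some x =>
    simp only [Option.bind_some, Option.map_some, Part.coe_some, Part.bind_some,
      Option.getD_some]
    have h2 : ∀ o : Part ℕ, o.map Encodable.encode = o := fun o => Part.map_id' (fun n => rfl) _
    rw [h2]

end Pool.Agent.U44.TD
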