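import Pool.Agent.U44.TD.Up

/-!
# The halting problem computes homeomorphisms between presentations of `ℕ`: the construction
-/

set_option autoImplicit false

namespace Pool.Agent.U44.TD

open Pool.Agent.Helper583.TT
open Pool.Agent.Helper583.TC (orc Red)
open Pool.Agent.H109R3.TC (CompMapIn)
open Pool.Agent.Helper583.TC.J3 (ri_comp ri_pair ri_comput ri_prim ri_pre ri_search)
open Pool.Agent.Helper583.TC.J2 (srchO srchO_some srchO_ne primrec_srchO)
open Filter Topology

section approx

variable {M : CMS} {q : ℕ × ℕ × ℕ → ℕ}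
  (hq : ∀ i j k, |dist (M.c i) (M.c j) - (q (i, j, k) : ℝ) / 2 ^ k| ≤ 1 / 2 ^ k)

include hq

theorem pos_of_two {i j k : ℕ} (h : 2 ≤ q (i, j, k)) : M.c i ≠ M.c j := by
  intro heq
  have h1 := hq i j k
  rw [heq, dist_self, zero_sub, abs_neg, abs_of_nonneg (by positivity),
    div_le_div_iff_of_pos_right (by positivity)] at h1
  have h2 : (2 : ℝ) ≤ (q (i, j, k) : ℝ) := by exact_mod_cast h
  linarith

theorem exists_prec {i j : ℕ} {η : ℝ} (hη : 0 < η) (hne : M.c i ≠ M.c j) :
    ∃ k, 2 ≤ q (i, j, k) ∧ ((q (i, j, k) : ℝ) + 1) / 2 ^ k < dist (M.c i) (M.c j) + η := by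
  have hpos : 0 < dist (M.c i) (M.c j) := dist_pos.2 hne
  obtain ⟨k, hk⟩ := exists_pow_lt_of_lt_one
    (show 0 < min (dist (M.c i) (M.c j)) η / 4 by positivity) (by norm_num : (1 / 2 : ℝ) < 1)
  rw [one_div_pow] at hk
  have h1 := abs_le.1 (hq i j k)
  have hm1 := min_le_left (dist (M.c i) (M.c j)) η
  have hm2 := min_le_right (dist (M.c i) (M.c j)) η
  have hK : (0 : ℝ) < 2 ^ k := by positivity
  refine ⟨k, ?_, ?_⟩
  · have h2 : 2 * (1 / 2 ^ k) ≤ (q (i, j, k) : ℝ) / 2 ^ k := by linarith [h1.2]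
    rw [← mul_div_assoc, mul_one, div_le_div_iff_of_pos_right hK] at h2
    exact_mod_cast h2
  · rw [add_div]
    linarith [h1.1]

theorem ne_iff (i j : ℕ) : M.c i ≠ M.c j ↔ ∃ k, decide (2 ≤ q (i, j, k)) = true := by
  constructor
  · intro h
    obtain ⟨k, hk, -⟩ := exists_prec hq one_pos h
    exact ⟨k, decide_eq_true hk⟩
  · rintro ⟨k, hk⟩
    exact pos_of_two hq (of_decide_eq_true hk)

theorem bad_iff (i r : ℕ) : (∃ j, M.c i ≠ M.c j ∧ dist (M.c i) (M.c j) < 1 / 2 ^ r) ↔
    ∃ z : ℕ, (decide (2 ≤ q (i, z.unpair.1, z.unpair.2)) &&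
      decide ((q (i, z.unpair.1, z.unpair.2) + 1) * 2 ^ r < 2 ^ z.unpair.2)) = true := by
  have key : ∀ v k : ℕ, (v + 1) * 2 ^ r < 2 ^ k ↔ ((v : ℝ) + 1) / 2 ^ k < 1 / 2 ^ r := by
    intro v k
    rw [div_lt_div_iff₀ (by positivity) (by positivity), one_mul]
    constructor
    · intro h
      exact_mod_cast h
    · intro h
      exact_mod_cast h
  constructor
  · rintro ⟨j, hne, hlt⟩
    obtain ⟨k, hk1, hk2⟩ := exists_prec hq (sub_pos.2 hlt) hne
    refine ⟨Nat.pair j k, ?_⟩
    simp only [Nat.unpair_pair]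
    rw [Bool.and_eq_true, decide_eq_true_iff, decide_eq_true_iff, key]
    exact ⟨hk1, by linarith⟩
  · rintro ⟨z, hz⟩
    rw [Bool.and_eq_true, decide_eq_true_iff, decide_eq_true_iff, key] at hz
    refine ⟨z.unpair.1, pos_of_two hq hz.1, ?_⟩
    have h1 := abs_le.1 (hq i z.unpair.1 z.unpair.2)
    have h2 := hz.2
    rw [add_div] at h2
    linarith [h1.2]

end approx

open Classical in
/-- whether `c i` and `c (g n)` are different -/
noncomputable def cne (M : CMS) (g : ℕ → ℕ) (z : ℕ) : ℕ :=
  if M.c z.unpair.1 ≠ M.c (g z.unpair.2) then 1 else 0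

open Classical in
/-- whether the ball of radius `1 / 2 ^ r` contains another point -/
noncomputable def cbad (M : CMS) (z : ℕ) : ℕ :=
  if ∃ j, M.c z.unpair.1 ≠ M.c j ∧ dist (M.c z.unpair.1) (M.c j) < 1 / 2 ^ z.unpair.2 then 1 else 0

theorem red_cne (M : CMS) {g : ℕ → ℕ} (hg : Computable g) : Red (cne M g) chH := by
  classical
  obtain ⟨q, hqc, hq⟩ := M.comp
  have h1 : REPred fun z : ℕ => M.c z.unpair.1 ≠ M.c (g z.unpair.2) := by
    have hR : Computable₂ fun (z k : ℕ) => decide (2 ≤ q (z.unpair.1, g z.unpair.2, k)) := by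
      have u1 : Computable fun p : ℕ × ℕ => p.1.unpair.1 :=
        (Primrec.fst.comp (Primrec.unpair.comp Primrec.fst)).to_comp
      have u2 : Computable fun p : ℕ × ℕ => g p.1.unpair.2 :=
        hg.comp (Primrec.snd.comp (Primrec.unpair.comp Primrec.fst)).to_comp
      have u3 : Computable fun p : ℕ × ℕ => q (p.1.unpair.1, g p.1.unpair.2, p.2) :=
        hqc.comp (g := fun p : ℕ × ℕ => (p.1.unpair.1, g p.1.unpair.2, p.2))
          (u1.pair (u2.pair Computable.snd))
      exact (Primrec.nat_le.decide.to_comp : Computable₂ fun a b : ℕ => decide (a ≤ b)).comp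
        (Computable.const 2) u3
    exact (re_of_comp hR).of_eq fun z => (ne_iff hq _ _).symm
  exact red_chH_of_re h1

theorem red_cbad (M : CMS) : Red (cbad M) chH := by
  classical
  obtain ⟨q, hqc, hq⟩ := M.comp
  have h1 : REPred fun z : ℕ => ∃ j, M.c z.unpair.1 ≠ M.c j ∧
      dist (M.c z.unpair.1) (M.c j) < 1 / 2 ^ z.unpair.2 := by
    have hR : Computable₂ fun (z y : ℕ) =>
        (decide (2 ≤ q (z.unpair.1, y.unpair.1, y.unpair.2)) &&
          decide ((q (z.unpair.1, y.unpair.1, y.unpair.2) + 1) * 2 ^ z.unpair.2 <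
            2 ^ y.unpair.2)) := by
      have u1 : Computable fun p : ℕ × ℕ => p.1.unpair.1 :=
        (Primrec.fst.comp (Primrec.unpair.comp Primrec.fst)).to_comp
      have u2 : Computable fun p : ℕ × ℕ => p.1.unpair.2 :=
        (Primrec.snd.comp (Primrec.unpair.comp Primrec.fst)).to_comp
      have u3 : Computable fun p : ℕ × ℕ => p.2.unpair.1 :=
        (Primrec.fst.comp (Primrec.unpair.comp Primrec.snd)).to_comp
      have u4 : Computable fun p : ℕ × ℕ => p.2.unpair.2 :=
        (Primrec.snd.comp (Primrec.unpair.comp Primrec.snd)).to_comp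
      have u5 : Computable fun p : ℕ × ℕ => q (p.1.unpair.1, p.2.unpair.1, p.2.unpair.2) :=
        hqc.comp (g := fun p : ℕ × ℕ => (p.1.unpair.1, p.2.unpair.1, p.2.unpair.2))
          (u1.pair (u3.pair u4))
      have u6 := (Primrec.nat_le.decide.to_comp :
        Computable₂ fun a b : ℕ => decide (a ≤ b)).comp (Computable.const (α := ℕ × ℕ) 2) u5
      have u7 := c_mul (c_add u5 (Computable.const 1)) (c_pow2 u2)
      have u8 := (Primrec.nat_lt.decide.to_comp :
        Computable₂ fun a b : ℕ => decide (a < b)).comp u7 (c_pow2 u4)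
      exact (Primrec.and.to_comp : Computable₂ and).comp u6 u8
    exact (re_of_comp hR).of_eq fun z => (bad_iff hq _ _).symm
  exact red_chH_of_re h1

/-- an enumeration of the points of a discrete space -/
structure Enum (M : CMS) where
  g : ℕ → ℕ
  comp : Computable g
  e : ℕ ≃ M.Y
  eq : ∀ n, e n = M.c (g n)

theorem exists_index {M : CMS} [DiscreteTopology M.Y] (y : M.Y) : ∃ j, M.c j = y := by
  obtain ⟨j, hj⟩ := M.dense.exists_mem_open (isOpen_discrete ({y} : Set M.Y)) ⟨y, rfl⟩
  exact ⟨j, hj⟩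

theorem exists_enum (M : CMS) [DiscreteTopology M.Y] [Infinite M.Y] : Nonempty (Enum M) := by
  obtain ⟨g, hg, hinj, hr⟩ := Pool.Agent.Helper583.TT.TTInj.exists_inj M.c M.dense (cr_of_comp M)
  have hsurj : Function.Surjective fun n => M.c (g n) := by
    intro y
    obtain ⟨j, hj⟩ := exists_index y
    have h1 : y ∈ Set.range M.c := ⟨j, hj⟩
    rw [← hr] at h1
    exact h1
  exact ⟨⟨g, hg, Equiv.ofBijective _ ⟨hinj, hsurj⟩, fun n => rfl⟩⟩

variable {M N : CMS}

/-- the number of the point with index `i` -/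
noncomputable def nu (E : Enum M) (i : ℕ) : ℕ := E.e.symm (M.c i)

theorem nu_spec (E : Enum M) (i : ℕ) : M.c (E.g (nu E i)) = M.c i := by
  rw [← E.eq]
  exact E.e.apply_symm_apply _

theorem red_nu (E : Enum M) : Red (nu E) chH := by
  classical
  have hQ : Nat.RecursiveIn {orc chH} (orc fun z => (1 - cne M E.g z) * (z.unpair.2 + 1)) := by
    have h1 := ri_pair (red_cne M E.comp) (ri_prim (O := {orc chH}) (f := fun z => z) Primrec.id)
    have h2 : Primrec fun u : ℕ => (1 - u.unpair.1) * (u.unpair.2.unpair.2 + 1) :=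
      Primrec.nat_mul.comp (Primrec.nat_sub.comp (Primrec.const 1)
        (Primrec.fst.comp Primrec.unpair)) (Primrec.succ.comp (Primrec.snd.comp
          (Primrec.unpair.comp (Primrec.snd.comp Primrec.unpair))))
    have h3 := ri_comp (f := fun u : ℕ => (1 - u.unpair.1) * (u.unpair.2.unpair.2 + 1))
      (ri_prim h2) h1
    simpa only [Nat.unpair_pair] using h3
  refine ri_search hQ (fun i => ⟨nu E i, ?_⟩) (fun i n hn => ?_)
  · simp only [Nat.unpair_pair, cne]
    rw [if_neg (by rw [nu_spec]; exact fun h => h rfl)]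
    simp
  · simp only [Nat.unpair_pair, cne] at hn ⊢
    by_cases h : M.c i ≠ M.c (E.g n)
    · rw [if_pos h] at hn
      simp at hn
    · rw [if_neg h]
      push Not at h
      have h1 : nu E i = n := by
        unfold nu
        rw [h, ← E.eq, E.e.symm_apply_apply]
      rw [h1]
      simp

/-- the table which is used by the functional -/
noncomputable def G (E : Enum M) (g' : ℕ → ℕ) (z : ℕ) : ℕ :=
  (1 - cbad M z) * (g' (nu E z.unpair.1) + 1)

theorem red_G (E : Enum M) {g' : ℕ → ℕ} (hg : Computable g') : Red (G E g') chH := by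
  have h1 : Nat.RecursiveIn {orc chH} (orc fun z => g' (nu E z.unpair.1)) :=
    ri_comp (f := g') (g := fun z => nu E z.unpair.1) (ri_comput hg)
      (ri_comp (f := nu E) (g := fun z => z.unpair.1) (red_nu E)
        (ri_prim (Primrec.fst.comp Primrec.unpair)))
  have h2 := ri_pair (red_cbad M) h1
  have h3 : Primrec fun u : ℕ => (1 - u.unpair.1) * (u.unpair.2 + 1) :=
    Primrec.nat_mul.comp (Primrec.nat_sub.comp (Primrec.const 1)
      (Primrec.fst.comp Primrec.unpair)) (Primrec.succ.comp (Primrec.snd.comp Primrec.unpair))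
  have h4 := ri_comp (f := fun u : ℕ => (1 - u.unpair.1) * (u.unpair.2 + 1)) (ri_prim h3) h2
  show Nat.RecursiveIn {orc chH} (orc fun z => (1 - cbad M z) * (g' (nu E z.unpair.1) + 1))
  simpa only [Nat.unpair_pair] using h4

/-- the entry of the table for the `k`-th step -/
def ent (w : List ℕ) (k : ℕ) : ℕ := Nat.pair (w.getD (k + 1) 0) k

/-- one test -/
def tstP (w l : List ℕ) (k : ℕ) : Option ℕ :=
  if l.getD (ent w k) 0 = 0 then none else some (l.getD (ent w k) 0 - 1)

/-- the functional, given the table -/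
def PP (x : (List ℕ × ℕ) × List ℕ) : Option ℕ := srchO (tstP x.1.1 x.2) (x.1.1.length - 1)

theorem primrec_PP : Primrec PP := by
  unfold PP
  refine primrec_srchO (f := fun (x : (List ℕ × ℕ) × List ℕ) (k : ℕ) => tstP x.1.1 x.2 k) ?_
    (Primrec.nat_sub.comp (Primrec.list_length.comp (Primrec.fst.comp Primrec.fst))
      (Primrec.const 1))
  have hent : Primrec fun y : ((List ℕ × ℕ) × List ℕ) × ℕ => ent y.1.1.1 y.2 := by
    unfold ent
    exact Primrec₂.natPair.comp ((Primrec.list_getD 0).comp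
      (Primrec.fst.comp (Primrec.fst.comp Primrec.fst)) (Primrec.succ.comp Primrec.snd))
      Primrec.snd
  have hv : Primrec fun y : ((List ℕ × ℕ) × List ℕ) × ℕ => y.1.2.getD (ent y.1.1.1 y.2) 0 :=
    (Primrec.list_getD 0).comp (Primrec.snd.comp Primrec.fst) hent
  show Primrec fun y : ((List ℕ × ℕ) × List ℕ) × ℕ => tstP y.1.1.1 y.1.2 y.2
  unfold tstP
  exact Primrec.ite (Primrec.eq.comp hv (Primrec.const 0)) (Primrec.const none)
    (Primrec.option_some.comp (Primrec.nat_sub.comp hv (Primrec.const 1)))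

/-- a bound for the entries which are used -/
def BB (x : List ℕ × ℕ) : ℕ := Nat.pair x.1.sum x.1.length + 1

theorem primrec_BB : Primrec BB := by
  unfold BB
  have h1 : Primrec fun x : List ℕ × ℕ => x.1.sum := by
    have h2 : Primrec fun x : List ℕ × ℕ => x.1.foldr (fun a b => a + b) 0 :=
      Primrec.list_foldr (f := fun x : List ℕ × ℕ => x.1) (g := fun _ => 0)
        (h := fun _ p => p.1 + p.2) Primrec.fst (Primrec.const 0)
        (Primrec.nat_add.comp (Primrec.fst.comp Primrec.snd) (Primrec.snd.comp Primrec.snd))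
    exact h2
  exact Primrec.succ.comp (Primrec₂.natPair.comp h1 (Primrec.list_length.comp Primrec.fst))

theorem ent_lt {w : List ℕ} {n k : ℕ} (hk : k < w.length - 1) : ent w k < BB (w, n) := by
  unfold ent BB
  refine Nat.lt_succ_of_le ?_
  have h1 : w.getD (k + 1) 0 ≤ w.sum := by
    rw [List.getD_eq_getElem _ _ (by omega)]
    exact List.le_sum_of_mem (List.getElem_mem _)
  have h2 : k ≤ w.length := by omega
  have mono_l : ∀ a b c : ℕ, a ≤ b → Nat.pair a c ≤ Nat.pair b c := fun a b c hab => by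
    rcases hab.eq_or_lt with rfl | hlt
    · exact le_rfl
    · exact (Nat.pair_lt_pair_left c hlt).le
  have mono_r : ∀ a b c : ℕ, a ≤ b → Nat.pair c a ≤ Nat.pair c b := fun a b c hab => by
    rcases hab.eq_or_lt with rfl | hlt
    · exact le_rfl
    · exact (Nat.pair_lt_pair_right c hlt).le
  exact (mono_l _ _ _ h1).trans (mono_r _ _ _ h2)

/-- the bijection between the enumerated points is computable relative to the halting problem -/
theorem compMap (E : Enum M) (E' : Enum N) (hM : DiscreteTopology M.Y) :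
    CompMapIn chH M N (E.e.symm.trans E'.e) := by
  classical
  refine ⟨_, recIn_of_prefix (red_G E E'.comp) primrec_PP.to_comp primrec_BB.to_comp, ?_⟩
  intro x p hp
  obtain ⟨n₀, hn₀⟩ : ∃ n₀, n₀ = E.e.symm x := ⟨_, rfl⟩
  have hxe : E.e n₀ = x := by rw [hn₀]; exact E.e.apply_symm_apply x
  -- the table
  have hget : ∀ L n k, k < L - 1 → (Pool.Agent.Helper583.TC.pre (G E E'.g)
      (BB (pre p L, n))).getD (ent (pre p L) k) 0 = G E E'.g (Nat.pair (p (k + 1)) k) := by
    intro L n k hk
    have hlen : (pre p L).length = L := by simp [pre]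
    have h1 : ent (pre p L) k < BB (pre p L, n) := ent_lt (by rw [hlen]; exact hk)
    have h2 : ent (pre p L) k = Nat.pair (p (k + 1)) k := by
      unfold ent
      congr 1
      rw [List.getD_eq_getElem _ _ (by rw [hlen]; omega)]
      simp [pre]
    rw [← h2]
    unfold Pool.Agent.Helper583.TC.pre
    rw [List.getD_eq_getElem _ _ (by simpa using h1)]
    simp
  -- a successful test gives the point
  have hgood : ∀ k, G E E'.g (Nat.pair (p (k + 1)) k) ≠ 0 →
      G E E'.g (Nat.pair (p (k + 1)) k) - 1 = E'.g n₀ := by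
    intro k hk
    unfold G at hk ⊢
    simp only [Nat.unpair_pair] at hk ⊢
    have hb : cbad M (Nat.pair (p (k + 1)) k) = 0 := by
      unfold cbad at hk ⊢
      split
      · rename_i h
        rw [if_pos h] at hk
        simp at hk
      · rfl
    rw [hb]
    have hnb : ¬ ∃ j, M.c (p (k + 1)) ≠ M.c j ∧
        dist (M.c (p (k + 1))) (M.c j) < 1 / 2 ^ k := by
      intro h
      unfold cbad at hb
      rw [Nat.unpair_pair] at hb
      rw [if_pos h] at hb
      exact one_ne_zero hb
    have hx : M.c (p (k + 1)) = x := by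
      by_contra hne
      obtain ⟨j, hj⟩ := exists_index x
      apply hnb
      refine ⟨j, by rw [hj]; exact hne, ?_⟩
      rw [hj]
      refine (hp (k + 1)).trans_lt ?_
      exact one_div_lt_one_div_of_lt (by positivity) (pow_lt_pow_right₀ (by norm_num) (by omega))
    have h3 : nu E (p (k + 1)) = n₀ := by
      unfold nu
      rw [hx, hn₀]
    rw [h3]
    simp
  -- there is a successful test
  have hex : ∃ k, G E E'.g (Nat.pair (p (k + 1)) k) ≠ 0 := by
    have hopen : IsOpen ({x} : Set M.Y) := isOpen_discrete _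
    obtain ⟨ε, hε, hball⟩ := Metric.isOpen_singleton_iff.1 hopen
    obtain ⟨k, hk⟩ := exists_pow_lt_of_lt_one hε (by norm_num : (1 / 2 : ℝ) < 1)
    rw [one_div_pow] at hk
    refine ⟨k, ?_⟩
    have hpk : (1 : ℝ) / 2 ^ (k + 1) ≤ 1 / 2 ^ k :=
      one_div_le_one_div_of_le (by positivity) (pow_le_pow_right₀ (by norm_num) (by omega))
    have hx : M.c (p (k + 1)) = x := hball _ (((hp (k + 1)).trans hpk).trans_lt hk)
    unfold G cbad
    simp only [Nat.unpair_pair]
    rw [if_neg]
    · simp
    · rintro ⟨j, hj1, hj2⟩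
      rw [hx] at hj1 hj2
      apply hj1
      rw [dist_comm] at hj2
      exact (hball _ (hj2.trans hk)).symm
  refine ⟨fun _ => E'.g n₀, fun n => ?_, fun n => ⟨?_, fun L m hm => ?_⟩⟩
  · have h1 : (E.e.symm.trans E'.e) x = N.c (E'.g n₀) := by
      rw [Equiv.trans_apply, ← hn₀, E'.eq]
    rw [h1, dist_self]
    positivity
  · obtain ⟨k, hk⟩ := hex
    refine ⟨k + 2, ?_⟩
    have hlen : (pre p (k + 2)).length = k + 2 := by simp [pre]
    have h1 : tstP (pre p (k + 2)) (Pool.Agent.Helper583.TC.pre (G E E'.g)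
        (BB (pre p (k + 2), n))) k = some (E'.g n₀) := by
      unfold tstP
      rw [hget _ _ _ (by omega), if_neg hk, hgood k hk]
    obtain ⟨v, hv⟩ := srchO_ne (tstP (pre p (k + 2)) (Pool.Agent.Helper583.TC.pre (G E E'.g)
      (BB (pre p (k + 2), n)))) ((pre p (k + 2)).length - 1) k _ (by rw [hlen]; omega) h1
    obtain ⟨j, hj, hj2⟩ := srchO_some _ _ _ hv
    have h2 : v = E'.g n₀ := by
      unfold tstP at hj2
      rw [hget _ _ _ (by rw [hlen] at hj; exact hj)] at hj2
      split at hj2
      · simp at hj2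
      · rename_i h
        rw [hgood j h] at hj2
        simpa using hj2.symm
    show E'.g n₀ ∈ (PP ((pre p (k + 2), n), _) : Part ℕ)
    unfold PP
    rw [hv, h2]
    exact Part.mem_some _
  · have h2 : m ∈ (PP ((pre p L, n), Pool.Agent.Helper583.TC.pre (G E E'.g)
        (BB (pre p L, n))) : Part ℕ) := hm
    rw [Part.mem_ofOption] at h2
    unfold PP at h2
    obtain ⟨j, hj, hj2⟩ := srchO_some _ _ _ h2
    have hlen : (pre p L).length = L := by simp [pre]
    unfold tstP at hj2
    simp only at hj hj2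
    rw [hget _ _ _ (by rw [hlen] at hj; exact hj)] at hj2
    split at hj2
    · simp at hj2
    · rename_i h
      rw [hgood j h] at hj2
      simpa using hj2.symm

end Pool.Agent.U44.TD
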